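import Mathlib
import Pool.Agent.X73.RK.Even

set_option autoImplicit false
set_option linter.unusedSectionVars false

/-!
# Maximum average degree of graphs without a given bipartite subgraph
-/

namespace Pool.Agent.X73.LEF

open Finset Pool.Agent.X73.RK

variable {V : Type} [Fintype V] [DecidableEq V]

/-- ordered pairs of adjacent vertices of `X` -/
theorem pairs_eq (G : SimpleGraph V) [DecidableRel G.Adj] (X : Finset V) :
    {e : V × V | e.1 ∈ X ∧ e.2 ∈ X ∧ G.Adj e.1 e.2}.ncard = ∑ u ∈ X, dS G X u := by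
  have h1 : {e : V × V | e.1 ∈ X ∧ e.2 ∈ X ∧ G.Adj e.1 e.2} =
      (((X ×ˢ X).filter (fun e => G.Adj e.1 e.2) : Finset (V × V)) : Set (V × V)) := by
    ext e
    simp only [Set.mem_setOf_eq, coe_filter, mem_product]
    tauto
  rw [h1, Set.ncard_coe_finset, Finset.card_filter, Finset.sum_product]
  apply Finset.sum_congr rfl
  intro u _
  unfold dS
  rw [Finset.card_filter]

/-- twice the number of the edges inside `X` -/
theorem sum_dS_eq (G : SimpleGraph V) [DecidableRel G.Adj] (X : Finset V) :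
    ∑ u ∈ X, dS G X u = 2 * (G.induce (X : Set V)).edgeFinset.card := by
  rw [← SimpleGraph.sum_degrees_eq_twice_card_edges]
  have h1 : ∀ u : (X : Set V), (G.induce (X : Set V)).degree u = dS G X u := by
    intro u
    rw [← SimpleGraph.card_neighborFinset_eq_degree, SimpleGraph.neighborFinset_eq_filter,
      Finset.card_filter]
    unfold dS
    rw [Finset.card_filter]
    exact Finset.sum_coe_sort X (fun v => if G.Adj u v then 1 else 0)
  rw [Finset.sum_congr rfl fun u _ => h1 u]
  exact (Finset.sum_coe_sort X (fun u => dS G X u)).symm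

/-- if every nonempty set has a vertex of small degree, all sets span few edges -/
theorem pairs_le (G : SimpleGraph V) [DecidableRel G.Adj] {a : ℝ}
    (h : ∀ S : Finset V, S.Nonempty → ∃ u ∈ S, (dS G S u : ℝ) ≤ a) (X : Finset V) :
    ∑ u ∈ X, (dS G X u : ℝ) ≤ 2 * a * X.card := by
  induction X using Finset.strongInduction with
  | H X ih =>
    rcases X.eq_empty_or_nonempty with hX | hX
    · subst hX; simp
    · obtain ⟨u, hu, hua⟩ := h X hX
      have h1 := ih (X.erase u) (Finset.erase_ssubset hu)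
      rw [sum_erase G X hu, Finset.card_erase_of_mem hu] at h1
      have h2 : 1 ≤ X.card := Finset.card_pos.mpr ⟨u, hu⟩
      rw [Nat.cast_sub h2] at h1
      push_cast at h1
      nlinarith

/-- the maximum average degree of a graph without a cycle of length `2 k`, in terms of the rank -/
theorem mad_even (G : SimpleGraph V) [DecidableRel G.Adj] {k : ℕ} (hk : 2 ≤ k)
    (hG : (SimpleGraph.cycleGraph (2 * k)).Free G) (X : Finset V) :
    ({e : V × V | e.1 ∈ X ∧ e.2 ∈ X ∧ G.Adj e.1 e.2}.ncard : ℝ) ≤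
      2 * (k * (2 * k - 3) * ((G.adjMatrix ℝ).rank : ℝ) ^ (1 / (k : ℝ))) * X.card := by
  rw [pairs_eq]
  push_cast
  have hk' : (2 : ℝ) ≤ k := by exact_mod_cast hk
  have hkne : (k : ℝ) ≠ 0 := by positivity
  have hK0 : (0 : ℝ) < k * (2 * k - 3) := by
    apply mul_pos <;> linarith
  set r : ℝ := ((G.adjMatrix ℝ).rank : ℝ) with hr
  have hr0 : 0 ≤ r := Nat.cast_nonneg _
  apply pairs_le
  intro S hS
  by_contra hcon
  push Not at hcon
  set a0 : ℝ := k * (2 * k - 3) * r ^ (1 / (k : ℝ)) with ha0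
  have ha00 : 0 ≤ a0 := by positivity
  obtain ⟨u, hu, hmin⟩ := Finset.exists_min_image S (fun u => (dS G S u : ℝ)) hS
  have hpos : 0 < (dS G S u : ℝ) := ha00.trans_lt (hcon u hu)
  have h1 := rank_part G hk hG S hS hpos hmin
  rw [← hr] at h1
  have h2 : (dS G S u : ℝ) / (k * (2 * k - 3)) ≤ r ^ (1 / (k : ℝ)) := by
    set q : ℝ := (dS G S u : ℝ) / (k * (2 * k - 3)) with hq
    have hq0 : 0 ≤ q := by positivity
    have h3 : (q ^ k) ^ (1 / (k : ℝ)) = q := by
      rw [← Real.rpow_natCast, ← Real.rpow_mul hq0, mul_one_div_cancel hkne, Real.rpow_one]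
    calc q = (q ^ k) ^ (1 / (k : ℝ)) := h3.symm
      _ ≤ r ^ (1 / (k : ℝ)) := Real.rpow_le_rpow (pow_nonneg hq0 k) h1
        (one_div_nonneg.mpr (Nat.cast_nonneg k))
  rw [div_le_iff₀ hK0] at h2
  have h3 := hcon u hu
  rw [ha0] at h3
  linarith

/-- the maximum average degree of a graph without `F`, in terms of the Turán numbers of `F` -/
theorem mad_free {U : Type} (F : SimpleGraph U) {C α : ℝ} (hC : 0 ≤ C) (hα : 0 ≤ α)
    (hex : ∀ m : ℕ, 1 ≤ m → (SimpleGraph.extremalNumber m F : ℝ) ≤ C * (m : ℝ) ^ (1 + α))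
    (G : SimpleGraph V) [DecidableRel G.Adj] (hG : F.Free G) (X : Finset V) :
    ({e : V × V | e.1 ∈ X ∧ e.2 ∈ X ∧ G.Adj e.1 e.2}.ncard : ℝ) ≤
      2 * (C * (Fintype.card V : ℝ) ^ α) * X.card := by
  rw [pairs_eq, sum_dS_eq]
  rcases X.eq_empty_or_nonempty with hX | hX
  · subst hX
    rw [Finset.card_empty]
    have : (G.induce ((∅ : Finset V) : Set V)).edgeFinset.card = 0 := by
      rw [Finset.card_eq_zero, Finset.eq_empty_iff_forall_notMem]
      intro x _
      induction x with
      | _ x y => exact absurd x.2 (by simp)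
    rw [this]
    simp
  · have hX1 : 1 ≤ X.card := Finset.card_pos.mpr hX
    have hXR : (0 : ℝ) < X.card := by exact_mod_cast hX1
    have hfree : F.Free (G.induce (X : Set V)) := by
      intro h
      exact hG (h.trans ⟨(SimpleGraph.Embedding.induce (X : Set V)).toCopy⟩)
    have h1 := SimpleGraph.card_edgeFinset_le_extremalNumber hfree
    have hcard : Fintype.card (X : Set V) = X.card := by simp
    rw [hcard] at h1
    have h2 : ((G.induce (X : Set V)).edgeFinset.card : ℝ) ≤ C * (X.card : ℝ) ^ (1 + α) :=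
      le_trans (by exact_mod_cast h1) (hex X.card hX1)
    have h3 : (X.card : ℝ) ^ (1 + α) = X.card * (X.card : ℝ) ^ α := by
      rw [Real.rpow_add hXR, Real.rpow_one]
    have h4 : (X.card : ℝ) ^ α ≤ (Fintype.card V : ℝ) ^ α := by
      apply Real.rpow_le_rpow hXR.le _ hα
      exact_mod_cast Finset.card_le_univ X
    push_cast
    calc 2 * ((G.induce (X : Set V)).edgeFinset.card : ℝ) ≤ 2 * (C * (X.card : ℝ) ^ (1 + α)) := by
          linarith
      _ = 2 * (C * (X.card : ℝ) ^ α) * X.card := by rw [h3]; ring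
      _ ≤ 2 * (C * (Fintype.card V : ℝ) ^ α) * X.card := by gcongr

end Pool.Agent.X73.LEF
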